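import Mathlib
import Pool.Agent.Y902.FB.Main
import Pool.Agent.Y902.FB.ExR

/-!
# The solutions of the problem's equation, counted by their bases, with free prime exponents

Two statements about the solutions of `x ^ p + y ^ q = z ^ r` in positive integers with
`gcd (x, y, z) = 1` and with prime exponents `p`, `q`, `r` such that `1/p + 1/q + 1/r ≤ 1`.

* There are absolute constants `C` and `κ` such that the exponent of every base `≥ 2` is at most
  `C (log max (x, y, z)) ^ κ`. (The base `1` has arbitrary exponents, which all give the same value.)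
* For every `ε > 0` there is `R` such that for all large `Y` at most `Y ^ ε` value triples
  `(x ^ p, y ^ q, z ^ r)` come from solutions with bases `x, y, z ≤ Y` and at least one exponent
  which is at least `R`. Apart from this the exponents and the values are free.

These are the versions, in the setting of this problem, of theorems of `Pool.Agent.Y902.FB`
(determinant method and linear forms in two logarithms), first handed in under `MP_2738db_nt`.
-/

set_option autoImplicit false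

namespace Pool.Agent.Results.MP_509488_nt.CountByBases

/-- `(x, y, z, p, q, r)` is a solution in the sense of the problem: `x`, `y`, `z` are positive
integers with `gcd (x, y, z) = 1`, the exponents `p`, `q`, `r` are primes with
`1/p + 1/q + 1/r ≤ 1`, and `x ^ p + y ^ q = z ^ r`. -/
def Solution (x y z p q r : ℕ) : Prop :=
  0 < x ∧ 0 < y ∧ 0 < z ∧ Nat.gcd x (Nat.gcd y z) = 1 ∧ p.Prime ∧ q.Prime ∧ r.Prime ∧
    (1 : ℚ) / p + 1 / q + 1 / r ≤ 1 ∧ x ^ p + y ^ q = z ^ r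

/-- The value triples `(x ^ p, y ^ q, z ^ r)` of the solutions with bases `x, y, z ≤ Y` and at least
one exponent which is at least `R`. -/
def Triples (Y R : ℕ) : Set (ℕ × ℕ × ℕ) :=
  {v | ∃ x y z p q r : ℕ, Solution x y z p q r ∧ x ≤ Y ∧ y ≤ Y ∧ z ≤ Y ∧
    (R ≤ p ∨ R ≤ q ∨ R ≤ r) ∧ v = (x ^ p, y ^ q, z ^ r)}

/-- The three bases of a solution are pairwise coprime. -/
theorem coprimes {x y z p q r : ℕ} (h : Solution x y z p q r) :
    Nat.Coprime x y ∧ Nat.Coprime x z ∧ Nat.Coprime y z := by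
  obtain ⟨-, -, -, hg, hp, hq, hr, -, he⟩ := h
  have key : ∀ l : ℕ, l.Prime → ¬ (l ∣ x ∧ l ∣ y ∧ l ∣ z) := by
    rintro l hl ⟨h1, h2, h3⟩
    have h4 : l ∣ Nat.gcd x (Nat.gcd y z) := Nat.dvd_gcd h1 (Nat.dvd_gcd h2 h3)
    rw [hg] at h4
    exact hl.one_lt.ne' (Nat.dvd_one.1 h4)
  refine ⟨?_, ?_, ?_⟩
  · refine Nat.Coprime.symm (Nat.coprime_of_dvd fun l hl h1 h2 => key l hl ⟨h2, h1, ?_⟩)
    have h3 : l ∣ z ^ r := he ▸ (Nat.dvd_add (h2.trans (dvd_pow_self x hp.ne_zero))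
      (h1.trans (dvd_pow_self y hq.ne_zero)))
    exact hl.dvd_of_dvd_pow h3
  · refine Nat.Coprime.symm (Nat.coprime_of_dvd fun l hl h1 h2 => key l hl ⟨h2, ?_, h1⟩)
    have h3 : l ∣ x ^ p + y ^ q := he ▸ (h1.trans (dvd_pow_self z hr.ne_zero))
    exact hl.dvd_of_dvd_pow ((Nat.dvd_add_right (h2.trans (dvd_pow_self x hp.ne_zero))).1 h3)
  · refine Nat.Coprime.symm (Nat.coprime_of_dvd fun l hl h1 h2 => key l hl ⟨?_, h2, h1⟩)
    have h3 : l ∣ x ^ p + y ^ q := he ▸ (h1.trans (dvd_pow_self z hr.ne_zero))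
    exact hl.dvd_of_dvd_pow ((Nat.dvd_add_left (h2.trans (dvd_pow_self y hq.ne_zero))).1 h3)

theorem result :
    (∃ (C : ℝ) (κ : ℕ), 0 < C ∧ ∀ x y z p q r : ℕ, Solution x y z p q r →
      (2 ≤ x → (p : ℝ) ≤ C * Real.log ((max x (max y z) : ℕ) : ℝ) ^ κ) ∧
      (2 ≤ y → (q : ℝ) ≤ C * Real.log ((max x (max y z) : ℕ) : ℝ) ^ κ) ∧
      (r : ℝ) ≤ C * Real.log ((max x (max y z) : ℕ) : ℝ) ^ κ) ∧
    (∀ ε : ℝ, 0 < ε → ∃ R Y₀ : ℕ, ∀ Y : ℕ, Y₀ ≤ Y →
      (Triples Y R).Finite ∧ ((Triples Y R).ncard : ℝ) ≤ (Y : ℝ) ^ ε) := by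
  constructor
  · obtain ⟨C, κ, hC, h⟩ := Pool.Agent.Y902.FB.exp_bound_real
    refine ⟨C, κ, hC, fun x y z p q r hs => ?_⟩
    obtain ⟨h1, h2, h3⟩ := coprimes hs
    exact h x y z p q r hs.1 hs.2.1 hs.2.2.1 h1 h2 h3 hs.2.2.2.2.1.two_le hs.2.2.2.2.2.1.two_le
      hs.2.2.2.2.2.2.1.two_le hs.2.2.2.2.2.2.2.2
  · intro ε hε
    obtain ⟨R, Y₀, h⟩ := Pool.Agent.Y902.FB.main ε hε
    refine ⟨R, Y₀, fun Y hY => ?_⟩
    obtain ⟨hf, hc⟩ := h Y hY
    have hsub : Triples Y R ⊆ Pool.Agent.Y902.FB.Triples Y R := by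
      rintro v ⟨x, y, z, p, q, r, hs, hx, hy, hz, hR, hv⟩
      obtain ⟨h1, h2, h3⟩ := coprimes hs
      exact ⟨x, y, z, p, q, r, hs.1, hs.2.1, hs.2.2.1, hx, hy, hz, h1, h2, h3,
        hs.2.2.2.2.1.two_le, hs.2.2.2.2.2.1.two_le, hs.2.2.2.2.2.2.1.two_le, hR,
        hs.2.2.2.2.2.2.2.2, hv⟩
    refine ⟨hf.subset hsub, le_trans ?_ hc⟩
    exact_mod_cast Set.ncard_le_ncard hsub hf

end Pool.Agent.Results.MP_509488_nt.CountByBases
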