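import Mathlib
import Pool.Agent.Y411.FB.Main

/-!
# The Fermat-Catalan equation with two given bases and free exponents

For ALL integers `a, b ≥ 2` and all `N` with `a, b ≤ exp (N ^ (1/16) / 1000)` (that is, for all
`N ≥ (1000 log max (a, b)) ^ 16`), all but at most `10 ^ 4 * N ^ (15/8)` of the `N ^ 2` pairs of
exponents `(m, n)`, `1 ≤ m, n ≤ N`, are such that none of the numbers `a ^ m + b ^ n`,
`a ^ m - b ^ n`, `b ^ n - a ^ m` is a perfect power `c ^ k`, `k ≥ 2`. The third base and the third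
exponent are completely free, the bound is explicit and uniform in the two bases, and no
coprimality is assumed.

Proof. Let `a ^ m ± b ^ n = c ^ k` with `b ^ n ≤ a ^ ((1 - 1/q) m)`, `q ≈ N ^ (1/8)` (the pairs
`(m, n)` near the line `a ^ m = b ^ n` are few).
* `k < q`: `q + 1` solutions `c_j ^ k = a ^ (m_j) + β` with the same `β = ± b ^ n`, congruent
  exponents `m_j` modulo `k` and `m_j` in a short interval are impossible: the integral determinant
  of Vandermonde type formed with the `c_j` is, by a mean value theorem for divided differences of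
  `(1 + t y) ^ (1/k)`, different from zero and smaller than one in absolute value.
* `k ≥ q`: `c` and `n` are determined by `m`, `k` and the sign.
* `k ≥ 2 ^ 8 N ^ (7/8)` is impossible by an estimate for linear forms in two logarithms.
-/

set_option autoImplicit false

namespace Pool.Agent.Results.MP_509488_nt.FixedBases

/-- For all integers `a, b ≥ 2` and all `N ≥ (1000 log max (a, b)) ^ 16` there are at most
`10 ^ 4 * N ^ (15/8)` pairs of exponents `(m, n)`, `1 ≤ m, n ≤ N`, for which one of the numbers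
`a ^ m + b ^ n`, `a ^ m - b ^ n`, `b ^ n - a ^ m` is a perfect power `c ^ k` with `k ≥ 2`. -/
theorem result : ∀ N a b : ℕ, 2 ≤ a → 2 ≤ b →
    (a : ℝ) ≤ Real.exp ((N : ℝ) ^ (1 / 16 : ℝ) / 1000) →
    (b : ℝ) ≤ Real.exp ((N : ℝ) ^ (1 / 16 : ℝ) / 1000) →
    (Set.ncard {p : ℕ × ℕ | 1 ≤ p.1 ∧ p.1 ≤ N ∧ 1 ≤ p.2 ∧ p.2 ≤ N ∧ ∃ c k : ℕ, 2 ≤ k ∧
      (a ^ p.1 + b ^ p.2 = c ^ k ∨ a ^ p.1 = b ^ p.2 + c ^ k ∨ b ^ p.2 = a ^ p.1 + c ^ k)} : ℝ) ≤
      10 ^ 4 * (N : ℝ) ^ (15 / 8 : ℝ) :=
  Pool.Agent.Y411.FB.fixed_bases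

end Pool.Agent.Results.MP_509488_nt.FixedBases
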