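import Mathlib
import Pool.Agent.H755R4.Fin2
import Pool.Agent.Y854.GM.Two

/-!
The Fermat-Catalan equation for pairs of bases in the thin sequences `⌊α m ^ c⌋`, `⌊β n ^ c'⌋`.

Let `c, c' > 1` be real. There is a set `E` of Hausdorff dimension less than one and for each
`α > 0` outside of `E` a set `E'` of Hausdorff dimension less than one such that for all `β > 0`
outside of `E'` and all pairs of bases `u = ⌊α m ^ c⌋`, `v = ⌊β n ^ c'⌋`, `1 ≤ m ≤ M`, `1 ≤ n ≤ N`,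
up to `o(M N)` exceptions (`M`, `N` tend to infinity with `M ≤ N ^ R`, `N ≤ M ^ R`): if `u, v` are
coprime, then none of the numbers `u ^ x + v ^ y`, `u ^ x - v ^ y`, `v ^ y - u ^ x` with `x, y ≥ 1`
is a perfect power `w ^ z`, `z ≥ 2`, `w ≥ 1`. The two sequences can be arbitrarily thin and both
exponents as well as the third power are completely free.
-/

set_option autoImplicit false

open Finset

namespace Pool.Agent.Results.MP_509488_nt.SparseBasePairs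

/-- The coprime pairs of positive bases for which one of the equations `u ^ x + v ^ y = w ^ z`,
`u ^ x + w ^ z = v ^ y`, `v ^ y + w ^ z = u ^ x` has a solution with `x, y, w ≥ 1`, `z ≥ 2`. -/
def Bad (u v : ℕ) : Prop :=
  0 < u ∧ 0 < v ∧ Nat.Coprime u v ∧ ∃ x y z w : ℕ, 0 < x ∧ 0 < y ∧ 2 ≤ z ∧ 0 < w ∧
    (u ^ x + v ^ y = w ^ z ∨ u ^ x + w ^ z = v ^ y ∨ v ^ y + w ^ z = u ^ x)

theorem result : ∀ c c' : ℝ, 1 < c → 1 < c' → ∃ E : Set ℝ, dimH E < 1 ∧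
    ∀ α : ℝ, 0 < α → α ∉ E → ∃ E' : Set ℝ, dimH E' < 1 ∧ ∀ β : ℝ, 0 < β → β ∉ E' →
      ∀ (R : ℕ) (ε : ℝ), 0 < ε → ∃ L : ℕ, ∀ M N : ℕ, L ≤ M → L ≤ N → M ≤ N ^ R → N ≤ M ^ R →
        (({p : ℕ × ℕ | p ∈ Set.Icc 1 M ×ˢ Set.Icc 1 N ∧
          Bad ⌊α * (p.1 : ℝ) ^ c⌋₊ ⌊β * (p.2 : ℝ) ^ c'⌋₊}.ncard : ℕ) : ℝ) ≤ ε * (M * N) := by
  classical
  intro c c' hc hc'
  obtain ⟨E, hE, h⟩ := Pool.Agent.Y854.GM.two c c' hc hc'
    (fun u v => if Bad u v then 1 else 0) (fun s t => by positivity)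
    (fun s t => by split_ifs <;> norm_num) (by
      intro ε hε
      obtain ⟨L, hL⟩ := Pool.Agent.H755R4.boxes2 0 hε
      refine ⟨L, fun X Y hX hY => ?_⟩
      have h1 := hL X Y hX hY 0 0 (Nat.zero_le _) (Nat.zero_le _)
      have h2 : ∑ s ∈ Ioc 0 X, ∑ t ∈ Ioc 0 Y, (if Bad s t then (1 : ℝ) else 0) =
          (((Ioc 0 X ×ˢ Ioc 0 Y).filter (fun p : ℕ × ℕ => Bad p.1 p.2)).card : ℝ) := by
        rw [← Finset.sum_product', Finset.card_filter]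
        push_cast
        rfl
      rw [h2]
      have h3 : (((Ioc 0 X ×ˢ Ioc 0 Y).filter (fun p : ℕ × ℕ => Bad p.1 p.2)).card : ℝ) ≤
          ((Pool.Agent.H755R4.Exc2 ∩ (Set.Ioc 0 (0 + X) ×ˢ Set.Ioc 0 (0 + Y))).ncard : ℝ) := by
        rw [← Set.ncard_coe_finset]
        have hsub : (((Ioc 0 X ×ˢ Ioc 0 Y).filter (fun p : ℕ × ℕ => Bad p.1 p.2) :
            Finset (ℕ × ℕ)) : Set (ℕ × ℕ)) ⊆
            Pool.Agent.H755R4.Exc2 ∩ (Set.Ioc 0 (0 + X) ×ˢ Set.Ioc 0 (0 + Y)) := by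
          rintro ⟨u, v⟩ hp
          simp only [Finset.coe_filter, Finset.mem_product, Finset.mem_Ioc, Set.mem_ofPred_eq] at hp
          refine ⟨hp.2, ?_⟩
          simp only [Set.mem_prod, Set.mem_Ioc, zero_add]
          exact hp.1
        exact_mod_cast Set.ncard_le_ncard hsub
          ((Pool.Agent.H374R2.Beal.box_finite 0 0 X Y).subset Set.inter_subset_right)
      calc _ ≤ _ := h3
        _ ≤ ε * (X * Y) := h1
        _ = ε * X * Y := by ring)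
  refine ⟨E, hE, fun α hα hαE => ?_⟩
  obtain ⟨E', hE', h'⟩ := h α hα hαE
  refine ⟨E', hE', fun β hβ hβE R ε hε => ?_⟩
  obtain ⟨L, hL⟩ := h' β hβ hβE R ε hε
  refine ⟨L, fun M N hM hN hMN hNM => ?_⟩
  have h1 := hL M N hM hN hMN hNM
  have h2 : ∑ m ∈ Icc 1 M, ∑ n ∈ Icc 1 N,
      (if Bad ⌊α * (m : ℝ) ^ c⌋₊ ⌊β * (n : ℝ) ^ c'⌋₊ then (1 : ℝ) else 0) =
      (((Icc 1 M ×ˢ Icc 1 N).filter
        (fun p : ℕ × ℕ => Bad ⌊α * (p.1 : ℝ) ^ c⌋₊ ⌊β * (p.2 : ℝ) ^ c'⌋₊)).card : ℝ) := by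
    rw [← Finset.sum_product', Finset.card_filter]
    push_cast
    rfl
  have h3 : {p : ℕ × ℕ | p ∈ Set.Icc 1 M ×ˢ Set.Icc 1 N ∧
      Bad ⌊α * (p.1 : ℝ) ^ c⌋₊ ⌊β * (p.2 : ℝ) ^ c'⌋₊} =
      (((Icc 1 M ×ˢ Icc 1 N).filter
        (fun p : ℕ × ℕ => Bad ⌊α * (p.1 : ℝ) ^ c⌋₊ ⌊β * (p.2 : ℝ) ^ c'⌋₊) :
          Finset (ℕ × ℕ)) : Set (ℕ × ℕ)) := by
    ext p
    simp only [Finset.coe_filter, Finset.mem_product, Finset.mem_Icc, Set.mem_ofPred_eq,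
      Set.mem_prod, Set.mem_Icc]
  rw [h3, Set.ncard_coe_finset, ← h2]
  calc _ ≤ _ := h1
    _ = ε * (M * N) := by ring

end Pool.Agent.Results.MP_509488_nt.SparseBasePairs
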