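import Mathlib
import Pool.Agent.Y411.UF.Main

/-!
# Two coprime bases, all exponents: a uniform explicit bound for the number of solutions

Let `a, b ≥ 2` be coprime integers.  There are only finitely many pairs `(m, n)` of positive
exponents (no bound on `m`, `n`) for which `a ^ m + b ^ n`, `a ^ m - b ^ n` or `b ^ n - a ^ m` is a
power `c ^ k` with `c ≥ 1`, `k ≥ 3` arbitrary, and their number is at most
`(10 ^ 8 P log (a b)) ^ (16 max(ω(a), ω(b)))`, where `P` is the least prime factor of `a b`.

Method.
* Linear forms in two logarithms (`P`-adic when the two powers have comparable logarithms, real when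
  they have not) bound the prime exponents by an absolute constant times `(P log (a b)) ^ 4`,
  uniformly in `m`, `n`.
* For one exponent `q ≥ 3` and `b ^ n ≤ a ^ m`: the solutions are distributed over
  `4 q ^ (ω(a) + 1)` classes modulo the primes dividing `a`.  For two solutions in one class the
  Padé approximants to `(1 - X) ^ (1 / q)` give, by the Thue–Siegel method in the topology defined
  by `a` (congruences modulo a power of the composite number `a`), a nonzero integer divisible by a
  high power of `a`; hence the two exponents `m` differ at most by the factor `20`.  Two solutions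
  whose exponents are even closer are identical.
-/

set_option autoImplicit false

namespace Pool.Agent.Results.MP_509488_nt.UniformFiniteness

/-- For all coprime `a, b ≥ 2` the set of all pairs `(m, n)` of positive integers such that
`a ^ m + b ^ n` or `|a ^ m - b ^ n|` is `c ^ k` for some `c ≥ 1` and `k ≥ 3` is finite, with at most
`(10 ^ 8 P log (a b)) ^ (16 max(ω(a), ω(b)))` elements, `P` the least prime factor of `a b`. -/
theorem result (a b : ℕ) (ha : 2 ≤ a) (hb : 2 ≤ b) (hab : Nat.Coprime a b) :
    {x : ℕ × ℕ | 1 ≤ x.1 ∧ 1 ≤ x.2 ∧ ∃ c k : ℕ, 1 ≤ c ∧ 3 ≤ k ∧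
      (a ^ x.1 + b ^ x.2 = c ^ k ∨ a ^ x.1 + c ^ k = b ^ x.2 ∨
        b ^ x.2 + c ^ k = a ^ x.1)}.Finite ∧
    ({x : ℕ × ℕ | 1 ≤ x.1 ∧ 1 ≤ x.2 ∧ ∃ c k : ℕ, 1 ≤ c ∧ 3 ≤ k ∧
      (a ^ x.1 + b ^ x.2 = c ^ k ∨ a ^ x.1 + c ^ k = b ^ x.2 ∨
        b ^ x.2 + c ^ k = a ^ x.1)}.ncard : ℝ) ≤
      (10 ^ 8 * (a * b).minFac * Real.log (a * b)) ^
        (16 * max a.primeFactors.card b.primeFactors.card) := by
  have h := Pool.Agent.Y411.UF.main ha hb hab
  refine ⟨h.1, h.2.trans_eq ?_⟩
  norm_num

end Pool.Agent.Results.MP_509488_nt.UniformFiniteness
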